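import Pool.Agent.Helper94.PQ.Stmts

/-!
# MP_c63a07_nt, row TOP: the tame inertia group is topologically generated by one element
-/

set_option autoImplicit false

open NumberField
open scoped Classical

namespace PQ

open BKA Pool.Agent.Helper13.Swan

namespace TOPx

variable {F : Type} [Field F] [NumberField F]

theorem on_mul {L : IntermediateField F (AlgebraicClosure F)} {σ τ : Gal F} {g h : L ≃ₐ[F] L}
    (hσ : On L σ g) (hτ : On L τ h) : On L (σ * τ) (g * h) := by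
  intro x
  rw [AlgEquiv.mul_apply, hτ x, hσ (h x)]
  rfl

theorem on_one (L : IntermediateField F (AlgebraicClosure F)) : On L (1 : Gal F) 1 := by
  intro x
  rfl

theorem on_pow {L : IntermediateField F (AlgebraicClosure F)} {σ : Gal F} {g : L ≃ₐ[F] L}
    (hσ : On L σ g) (n : ℕ) : On L (σ ^ n) (g ^ n) := by
  induction n with
  | zero => rw [pow_zero, pow_zero]; exact on_one L
  | succ n ih => rw [pow_succ, pow_succ]; exact on_mul ih hσ

theorem on_unique {L : IntermediateField F (AlgebraicClosure F)} {σ : Gal F} {g h : L ≃ₐ[F] L}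
    (hg : On L σ g) (hh : On L σ h) : g = h := by
  ext x
  rw [← hg x, ← hh x]

theorem exists_on (L : IntermediateField F (AlgebraicClosure F)) [Normal F L] (σ : Gal F) :
    ∃ g : L ≃ₐ[F] L, On L σ g := by
  refine ⟨AlgEquiv.restrictNormal σ L, ?_⟩
  intro x
  exact (AlgEquiv.restrictNormal_commutes σ L x).symm

/-- `Ram` only depends on the restriction to `L` -/
theorem ram_congr {L : IntermediateField F (AlgebraicClosure F)} {𝔓 : Ideal (Zb F)} {i : ℕ}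
    {σ τ : Gal F} (h : ∀ x ∈ L, σ x = τ x) : Ram L 𝔓 i σ ↔ Ram L 𝔓 i τ := by
  constructor
  · intro hr x y hxy
    exact hr x y (by rw [hxy, h _ (x : L).2])
  · intro hr x y hxy
    exact hr x y (by rw [hxy, h _ (x : L).2])

/-- a set of automorphisms which only depends on the restriction to a finite extension is
closed -/
theorem isClosed_of_on (L : IntermediateField F (AlgebraicClosure F)) [FiniteDimensional F L]
    (S : Set (Gal F)) (h : ∀ σ τ : Gal F, (∀ x ∈ L, σ x = τ x) → σ ∈ S → τ ∈ S) :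
    IsClosed S := by
  rw [← isOpen_compl_iff, isOpen_iff_mem_nhds]
  intro σ hσ
  have h1 : IsOpen ((L.fixingSubgroup : Set (Gal F))) := L.fixingSubgroup_isOpen
  have h2 : IsOpen ((fun τ : Gal F => σ⁻¹ * τ) ⁻¹' (L.fixingSubgroup : Set (Gal F))) :=
    h1.preimage (continuous_const.mul continuous_id)
  refine Filter.mem_of_superset (h2.mem_nhds ?_) ?_
  · show σ⁻¹ * σ ∈ L.fixingSubgroup
    rw [inv_mul_cancel]
    exact one_mem _
  · intro τ hτ hτS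
    have hτ' : σ⁻¹ * τ ∈ L.fixingSubgroup := hτ
    apply hσ
    apply h τ σ _ hτS
    intro x hx
    have h3 := (IntermediateField.mem_fixingSubgroup_iff L _).1 hτ' x hx
    have h4 : (σ⁻¹ * τ) x = σ⁻¹ (τ x) := rfl
    rw [h4] at h3
    have h5 := congrArg σ h3
    rw [← h5]
    exact ((AlgEquiv.apply_symm_apply σ (τ x))).symm

theorem isClosed_congr (𝔓 : Ideal (Zb F)) : IsClosed {σ : Gal F | Congr 𝔓 1 σ} := by
  have h1 : {σ : Gal F | Congr 𝔓 1 σ} = ⋂ x : Zb F, {σ : Gal F | ∀ y : Zb F,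
      (y : AlgebraicClosure F) = σ (x : AlgebraicClosure F) → y - x ^ 1 ∈ 𝔓} := by
    ext σ
    simp only [Set.mem_setOf_eq, Set.mem_iInter]
    rfl
  rw [h1]
  apply isClosed_iInter
  intro x
  have hx : IsIntegral F (x : AlgebraicClosure F) :=
    (Algebra.IsAlgebraic.isAlgebraic (x : AlgebraicClosure F)).isIntegral
  have : FiniteDimensional F (IntermediateField.adjoin F {(x : AlgebraicClosure F)}) :=
    IntermediateField.adjoin.finiteDimensional hx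
  apply isClosed_of_on (IntermediateField.adjoin F {(x : AlgebraicClosure F)})
  intro σ τ hστ hσ y hy
  refine hσ y ?_
  rw [hy, hστ _ (IntermediateField.mem_adjoin_simple_self F _)]

/-- the condition at `L` -/
def KL (𝔓 : Ideal (Zb F)) (L : IntermediateField F (AlgebraicClosure F)) : Set (Gal F) :=
  {τ | Congr 𝔓 1 τ ∧ ∀ σ : Gal F, Congr 𝔓 1 σ → ∃ j : ℕ, Ram L 𝔓 1 (τ ^ j * σ)}

theorem isClosed_KL (𝔓 : Ideal (Zb F)) (L : IntermediateField F (AlgebraicClosure F))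
    [FiniteDimensional F L] [Normal F L] : IsClosed (KL 𝔓 L) := by
  have h1 : KL 𝔓 L = {σ : Gal F | Congr 𝔓 1 σ} ∩
      {τ | ∀ σ : Gal F, Congr 𝔓 1 σ → ∃ j : ℕ, Ram L 𝔓 1 (τ ^ j * σ)} := rfl
  rw [h1]
  apply (isClosed_congr 𝔓).inter
  apply isClosed_of_on L
  intro τ τ' hτ hS σ hσ
  obtain ⟨j, hj⟩ := hS σ hσ
  refine ⟨j, ?_⟩
  obtain ⟨g, hg⟩ := exists_on L τ
  have hg' : On L τ' g := by
    intro x
    rw [← hτ _ x.2]
    exact hg x
  obtain ⟨h, hh⟩ := exists_on L σ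
  refine (ram_congr ?_).1 hj
  intro x hx
  have e1 := on_mul (on_pow hg j) hh ⟨x, hx⟩
  have e2 := on_mul (on_pow hg' j) hh ⟨x, hx⟩
  exact e1.trans e2.symm

/-- the residue characteristic -/
theorem exists_char (v : Pl F) : ∃ p : ℕ, p.Prime ∧ (p : 𝓞 F) ∈ v.asIdeal ∧
    ((2 : 𝓞 F) ∈ v.asIdeal → p = 2) := by
  have : v.asIdeal.IsPrime := v.isPrime
  have : v.asIdeal.IsMaximal := v.isMaximal
  have : Finite (𝓞 F ⧸ v.asIdeal) := Ring.HasFiniteQuotients.finiteQuotient v.ne_bot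
  obtain ⟨p, hp⟩ := CharP.exists (𝓞 F ⧸ v.asIdeal)
  have hp0 : p ≠ 0 := CharP.char_ne_zero_of_finite (𝓞 F ⧸ v.asIdeal) p
  have : NeZero p := ⟨hp0⟩
  have hpp : p.Prime := by
    rcases CharP.char_is_prime_or_zero (𝓞 F ⧸ v.asIdeal) p with h | h
    · exact h
    · exact absurd h hp0
  refine ⟨p, hpp, ?_, ?_⟩
  · rw [← Ideal.Quotient.eq_zero_iff_mem, map_natCast]
    exact CharP.cast_eq_zero _ p
  · intro h2
    have h3 : ((2 : ℕ) : 𝓞 F ⧸ v.asIdeal) = 0 := by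
      have h5 : ((2 : ℕ) : 𝓞 F) ∈ v.asIdeal := by exact_mod_cast h2
      have := Ideal.Quotient.eq_zero_iff_mem.2 h5
      rw [map_natCast] at this
      exact this
    have h4 := (CharP.cast_eq_zero_iff (𝓞 F ⧸ v.asIdeal) p 2).1 h3
    exact (Nat.prime_dvd_prime_iff_eq hpp Nat.prime_two).1 h4

theorem w_p_lt {v : Pl F} {𝔓 : Ideal (Zb F)} (L : IntermediateField F (AlgebraicClosure F))
    (hv : Over v 𝔓) (M : LocM v 𝔓 L) {p : ℕ} (hp : (p : 𝓞 F) ∈ v.asIdeal) :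
    M.w (p : L) < 1 := by
  have h1 := (M.int (p : 𝓞 L)).2
  have h2 : (((p : 𝓞 L) : L)) = (p : L) := by simp
  rw [h2] at h1
  rw [h1]
  show inc L (p : 𝓞 L) ∈ 𝔓
  refine (hv.2 (p : 𝓞 F) _ ?_).1 hp
  rw [map_natCast]
  simp

end TOPx

open TOPx

theorem top_of (hFIN : ST_FIN) (hSUR : ST_SUR) (hGRP : ST_GRP) (hTAME : ST_TAME) : ST_TOP := by
  intro F _ _ v 𝔓 hv
  obtain ⟨p, hp, hpv, hp2⟩ := exists_char v
  obtain ⟨g1, g2, g3, g4, g5, g6, g7, g8⟩ := hGRP F v 𝔓 hv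
  -- the local facts at `L`
  have key : ∀ (L : IntermediateField F (AlgebraicClosure F)), FiniteDimensional F L →
      Normal F L → ∃ R : Subgroup (Inr L 𝔓), R.Normal ∧ IsPGroup p R ∧ ¬ p ∣ R.index ∧
        (∃ t : Inr L 𝔓, ∀ g : Inr L 𝔓, ∃ j : ℕ, t ^ j * g ∈ R) ∧
        ∀ (σ : Gal F) (g : Inr L 𝔓), On L σ (g : L ≃ₐ[F] L) → (Ram L 𝔓 1 σ ↔ g ∈ R) := by
    intro L hL1 hL2
    obtain ⟨M⟩ := hFIN F v 𝔓 hv L hL1 hL2
    have : Fintype (Inr L 𝔓) := Fintype.ofFinite _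
    have : FaithfulSMul (Inr L 𝔓) L := by
      constructor
      intro a b hab
      apply Subtype.ext
      ext x
      exact congrArg _ (hab x)
    obtain ⟨h1, h2, h3⟩ := hTAME L (Inr L 𝔓) M.w M.π M.base p hp (w_p_lt L hv M hpv)
    refine ⟨Rk M.base 1, Rk_normal M.base 1, h1, h2, h3, ?_⟩
    intro σ g hg
    rw [g8 L 1 σ g hg]
    exact M.ram 1 g
  -- a generator
  let ι := {L : IntermediateField F (AlgebraicClosure F) // FiniteDimensional F L ∧ Normal F L}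
  have : Nonempty ι := ⟨⟨⊥, inferInstance, inferInstance⟩⟩
  have hmono : ∀ (L L' : IntermediateField F (AlgebraicClosure F)), FiniteDimensional F L →
      Normal F L → FiniteDimensional F L' → Normal F L' → L ≤ L' → KL 𝔓 L' ⊆ KL 𝔓 L := by
    intro L L' a1 a2 a3 a4 hle τ hτ
    refine ⟨hτ.1, ?_⟩
    intro σ hσ
    obtain ⟨j, hj⟩ := hτ.2 σ hσ
    refine ⟨j, ?_⟩
    -- `ρ = τ ^ j * σ`
    have hpow : ∀ n : ℕ, Congr 𝔓 1 (τ ^ n) := by
      intro n
      induction n with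
      | zero =>
        intro x y hxy
        have : y = x := by
          apply Subtype.ext
          rw [hxy, pow_zero]
          rfl
        rw [this, pow_one, sub_self]
        exact Ideal.zero_mem _
      | succ n ih => rw [pow_succ]; exact g1 _ _ ih hτ.1
    have hρ : Congr 𝔓 1 (τ ^ j * σ) := g1 _ _ (hpow j) hσ
    obtain ⟨R, hR1, hR2, hR3, _, hR5⟩ := key L a1 a2
    obtain ⟨R', hR1', hR2', hR3', _, hR5'⟩ := key L' a3 a4
    obtain ⟨g, hg, hgo⟩ := g7 L a2 _ hρ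
    obtain ⟨g', hg', hgo'⟩ := g7 L' a4 _ hρ
    have h1 : (⟨g', hg'⟩ : Inr L' 𝔓) ∈ R' := (hR5' _ ⟨g', hg'⟩ hgo').1 hj
    obtain ⟨k, hk⟩ := hR2' ⟨⟨g', hg'⟩, h1⟩
    have h2 : g' ^ p ^ k = 1 := congrArg (fun z : R' => ((z : Inr L' 𝔓) : L' ≃ₐ[F] L')) hk
    have h3 : On L' ((τ ^ j * σ) ^ p ^ k) 1 := by
      rw [← h2]
      exact on_pow hgo' _
    have h4 : On L ((τ ^ j * σ) ^ p ^ k) 1 := by
      intro x
      exact h3 ⟨x, hle x.2⟩
    have h5 : g ^ p ^ k = 1 := on_unique (on_pow hgo _) h4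
    rw [hR5 _ ⟨g, hg⟩ hgo]
    have := hR1
    rw [← QuotientGroup.eq_one_iff]
    have h6 : ((⟨g, hg⟩ : Inr L 𝔓) : Inr L 𝔓 ⧸ R) ^ p ^ k = 1 := by
      rw [← QuotientGroup.mk_pow]
      have : (⟨g, hg⟩ : Inr L 𝔓) ^ p ^ k = 1 := by
        apply Subtype.ext
        exact h5
      rw [this]
      rfl
    have h7 : ((⟨g, hg⟩ : Inr L 𝔓) : Inr L 𝔓 ⧸ R) ^ R.index = 1 := by
      rw [← QuotientGroup.mk_pow, QuotientGroup.eq_one_iff]
      exact R.pow_index_mem _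
    have h8 := orderOf_dvd_of_pow_eq_one h6
    have h9 := orderOf_dvd_of_pow_eq_one h7
    have h10 : Nat.Coprime (p ^ k) R.index :=
      Nat.Coprime.pow_left k ((Nat.Prime.coprime_iff_not_dvd hp).2 hR3)
    have h11 := Nat.eq_one_of_dvd_coprimes h10 h8 h9
    exact orderOf_eq_one_iff.1 h11
  have hne : ∀ (L : IntermediateField F (AlgebraicClosure F)), FiniteDimensional F L →
      Normal F L → (KL 𝔓 L).Nonempty := by
    intro L a1 a2
    obtain ⟨R, hR1, hR2, hR3, ⟨t, ht⟩, hR5⟩ := key L a1 a2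
    obtain ⟨τ, hτ1, hτ2⟩ := hSUR F v 𝔓 hv L a1 a2 t t.2
    refine ⟨τ, hτ1, ?_⟩
    intro σ hσ
    obtain ⟨g, hg, hgo⟩ := g7 L a2 σ hσ
    obtain ⟨j, hj⟩ := ht ⟨g, hg⟩
    refine ⟨j, ?_⟩
    rw [hR5 _ (t ^ j * ⟨g, hg⟩) (on_mul (on_pow hτ2 j) hgo)]
    exact hj
  have hint : (⋂ L : ι, KL 𝔓 L.1).Nonempty := by
    apply IsCompact.nonempty_iInter_of_directed_nonempty_isCompact_isClosed
    · intro L L'
      have := L.2.1
      have := L.2.2
      have := L'.2.1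
      have := L'.2.2
      refine ⟨⟨L.1 ⊔ L'.1, inferInstance, inferInstance⟩, ?_, ?_⟩
      · exact hmono _ _ inferInstance inferInstance inferInstance inferInstance le_sup_left
      · exact hmono _ _ inferInstance inferInstance inferInstance inferInstance le_sup_right
    · intro L
      exact hne L.1 L.2.1 L.2.2
    · intro L
      have := L.2.1
      have := L.2.2
      exact (isClosed_KL 𝔓 L.1).isCompact
    · intro L
      have := L.2.1
      have := L.2.2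
      exact isClosed_KL 𝔓 L.1
  obtain ⟨τ, hτ⟩ := hint
  rw [Set.mem_iInter] at hτ
  have hcongr : Congr 𝔓 1 τ := (hτ (Classical.arbitrary ι)).1
  have hgen : TGen 𝔓 τ := ⟨hcongr, fun L a1 a2 => (hτ ⟨L, a1, a2⟩).2⟩
  refine ⟨τ, hgen, ?_⟩
  intro h2
  have hp2' := hp2 h2
  subst hp2'
  refine ⟨g1 _ _ hcongr hcongr, ?_⟩
  intro L a1 a2 σ hσ
  obtain ⟨R, hR1, hR2, hR3, _, hR5⟩ := key L a1 a2
  obtain ⟨j, hj⟩ := hgen.2 L a1 a2 σ hσ
  obtain ⟨t, ht, hto⟩ := g7 L a2 τ hcongr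
  obtain ⟨g, hg, hgo⟩ := g7 L a2 σ hσ
  have h1 : (⟨t, ht⟩ : Inr L 𝔓) ^ j * ⟨g, hg⟩ ∈ R :=
    (hR5 _ ((⟨t, ht⟩ : Inr L 𝔓) ^ j * ⟨g, hg⟩) (on_mul (on_pow hto j) hgo)).1 hj
  have := hR1
  have h3 : (⟨t, ht⟩ : Inr L 𝔓) ^ R.index ∈ R := R.pow_index_mem _
  have h4 : (⟨t, ht⟩ : Inr L 𝔓) ^ (R.index + j) * ⟨g, hg⟩ ∈ R := by
    rw [pow_add, mul_assoc]
    exact R.mul_mem h3 h1
  have hodd : Odd R.index := by
    rw [← Nat.not_even_iff_odd, even_iff_two_dvd]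
    exact hR3
  have hex : ∃ i : ℕ, (⟨t, ht⟩ : Inr L 𝔓) ^ (i + i) * ⟨g, hg⟩ ∈ R := by
    rcases Nat.even_or_odd j with hj' | hj'
    · obtain ⟨i, rfl⟩ := hj'
      exact ⟨i, h1⟩
    · obtain ⟨i, hi⟩ := hodd.add_odd hj'
      exact ⟨i, by rw [← hi]; exact h4⟩
  obtain ⟨i, hi⟩ := hex
  refine ⟨i, ?_⟩
  have h5 : (τ * τ) ^ i = τ ^ (i + i) := by
    rw [← pow_two, ← pow_mul, two_mul]
  rw [h5, hR5 _ ((⟨t, ht⟩ : Inr L 𝔓) ^ (i + i) * ⟨g, hg⟩) (on_mul (on_pow hto (i + i)) hgo)]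
  exact hi

end PQ
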